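import Pool.Agent.H97R2.LPB.Props

/-!
# Archimedean bound for `1, log 2, π²`: assembly
-/

open Polynomial Filter Topology MeasureTheory Pool.Agent.H337R2 Pool.Agent.LP

namespace Pool.Agent.LPB

namespace H929

/-- bound for `Phi + 2 Ux` -/
lemma F_bound (h8 : S_even) (h9 : S_cert1) (h10 : S_cert2) (h11 : S_cert3) (h12 : S_tail) (v : ℝ) :
    (|v| ≤ 12 → Phi v + 2 * Ux v ≤ -(665 / 100)) ∧
      (12 ≤ |v| → Phi v + 2 * Ux v ≤ -(665 / 100) - |v| / 2) := by
  have key : Phi v + 2 * Ux v = Phi |v| + 2 * Ux |v| := by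
    rcases abs_choice v with h | h
    · rw [h]
    · rw [h, h8]
  rw [key]
  have h0 := abs_nonneg v
  refine ⟨fun h => ?_, fun h => h12 _ h⟩
  rcases le_or_gt |v| 2 with h1 | h1
  · exact h9 _ h0 h1
  · rcases le_or_gt |v| (387 / 100) with h2 | h2
    · exact h10 _ h1.le h2
    · exact h11 _ h2.le h

lemma F_bound2 (h8 : S_even) (h9 : S_cert1) (h10 : S_cert2) (h11 : S_cert3) (h12 : S_tail)
    (C : ℝ) (hC : 0 < C) (n : ℕ) (hn : 2 ≤ n) (hnC : 2 * C ≤ n) (y : ℝ) :
    n * (Phi (y / n) + 2 * Ux (y / n)) + C * Real.log (n + |y|) ≤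
      -(665 / 100) * n + 5 * C * Real.log n := by
  have hn' : (2 : ℝ) ≤ n := by exact_mod_cast hn
  have hn0 : (0 : ℝ) < n := by linarith
  have hl0 : 0 ≤ Real.log n := Real.log_nonneg (by linarith)
  have hv : |y / n| = |y| / n := by rw [abs_div, abs_of_pos hn0]
  obtain ⟨hF1, hF2⟩ := F_bound h8 h9 h10 h11 h12 (y / n)
  rw [hv] at hF1 hF2
  have hy0 := abs_nonneg y
  rcases le_total (|y| / n) 12 with h | h
  · have h3 := hF1 h
    have h4 : |y| ≤ 12 * n := by rwa [div_le_iff₀ hn0] at h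
    have h5 : Real.log (n + |y|) ≤ 5 * Real.log n := by
      have h6 : (n : ℝ) + |y| ≤ (n : ℝ) ^ 5 := by
        have h7 : (13 : ℝ) ≤ (n : ℝ) ^ 4 := by
          calc (13 : ℝ) ≤ 2 ^ 4 := by norm_num
            _ ≤ (n : ℝ) ^ 4 := pow_le_pow_left₀ (by norm_num) hn' 4
        calc (n : ℝ) + |y| ≤ 13 * n := by linarith
          _ ≤ (n : ℝ) ^ 4 * n := mul_le_mul_of_nonneg_right h7 hn0.le
          _ = (n : ℝ) ^ 5 := by ring
      calc Real.log (n + |y|) ≤ Real.log ((n : ℝ) ^ 5) := Real.log_le_log (by linarith) h6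
        _ = 5 * Real.log n := by rw [Real.log_pow]; norm_num
    have h8 : C * Real.log (n + |y|) ≤ C * (5 * Real.log n) := mul_le_mul_of_nonneg_left h5 hC.le
    have h9 := mul_le_mul_of_nonneg_left h3 hn0.le
    linarith
  · have h3 := mul_le_mul_of_nonneg_left (hF2 h) hn0.le
    have h4 : Real.log (n + |y|) ≤ Real.log n + |y| / n := by
      have h5 : (n : ℝ) + |y| = n * (1 + |y| / n) := by field_simp
      rw [h5, Real.log_mul hn0.ne' (by positivity)]
      have h6 := Real.log_le_sub_one_of_pos (x := 1 + |y| / n) (by positivity)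
      linarith
    have h5 : C * Real.log (n + |y|) ≤ C * (Real.log n + |y| / n) :=
      mul_le_mul_of_nonneg_left h4 hC.le
    have h6 : C * (|y| / n) ≤ |y| / 2 := by
      rw [mul_div_assoc', div_le_div_iff₀ hn0 (by norm_num)]
      nlinarith
    have h7 : (n : ℝ) * (-(665 / 100) - |y| / n / 2) = -(665 / 100) * n - |y| / 2 := by
      field_simp
    have h8 : 0 ≤ C * Real.log n := by positivity
    nlinarith

/-- pointwise bound -/
lemma ptw (h8 : S_even) (h9 : S_cert1) (h10 : S_cert2) (h11 : S_cert3) (h12 : S_tail)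
    (C₁ C₂ : ℝ) (hC₁ : 0 < C₁) (hC₂ : 0 < C₂) (n : ℕ) (hn : 2 ≤ n)
    (hnC : 2 * (2 * C₁ + C₂ + 2) ≤ n) (s : Finset ℕ) (x : ℕ → ℝ) (w : ℝ → ℝ) (y : ℝ)
    (hw0 : 0 < w y)
    (hp : ∏ j ∈ s, |y - x j| ≤
      Real.exp (n * Ux (y / n) + 4 * n * Real.log n + C₁ * Real.log (n + |y|)))
    (hw : w y ≤ Real.exp (n * Phi (y / n) - 3 * n * Real.log n + C₂ * Real.log (n + |y|))) :
    (∏ j ∈ s, (y - x j)) ^ 2 * w y ≤
      Real.exp (-(665 / 100) * n + 5 * n * Real.log n + 5 * (2 * C₁ + C₂ + 2) * Real.log n) *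
        (1 + y ^ 2)⁻¹ := by
  have hn' : (2 : ℝ) ≤ n := by exact_mod_cast hn
  have hn0 : (0 : ℝ) < n := by linarith
  have hy0 := abs_nonneg y
  have hb := F_bound2 h8 h9 h10 h11 h12 (2 * C₁ + C₂ + 2) (by linarith) n hn hnC y
  have h1 : (∏ j ∈ s, (y - x j)) ^ 2 = (∏ j ∈ s, |y - x j|) ^ 2 := by
    rw [← Finset.abs_prod, sq_abs]
  have h2 : (∏ j ∈ s, |y - x j|) ^ 2 ≤
      Real.exp (2 * (n * Ux (y / n) + 4 * n * Real.log n + C₁ * Real.log (n + |y|))) := by
    rw [two_mul, Real.exp_add, ← sq]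
    exact pow_le_pow_left₀ (Finset.prod_nonneg fun j _ => abs_nonneg _) hp 2
  have h3 : 1 + y ^ 2 ≤ Real.exp (2 * Real.log (n + |y|)) := by
    rw [two_mul, Real.exp_add, Real.exp_log (by positivity), ← sq_abs y]
    nlinarith
  have hy1 : 0 < 1 + y ^ 2 := by positivity
  rw [← div_eq_mul_inv, le_div_iff₀ hy1, h1]
  calc (∏ j ∈ s, |y - x j|) ^ 2 * w y * (1 + y ^ 2)
      ≤ Real.exp (2 * (n * Ux (y / n) + 4 * n * Real.log n + C₁ * Real.log (n + |y|))) *
          Real.exp (n * Phi (y / n) - 3 * n * Real.log n + C₂ * Real.log (n + |y|)) *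
          Real.exp (2 * Real.log (n + |y|)) := by
        refine mul_le_mul (mul_le_mul h2 hw hw0.le (Real.exp_pos _).le) h3 hy1.le (by positivity)
    _ = Real.exp (n * (Phi (y / n) + 2 * Ux (y / n)) + (2 * C₁ + C₂ + 2) * Real.log (n + |y|) +
          5 * n * Real.log n) := by
        rw [← Real.exp_add, ← Real.exp_add]
        congr 1
        ring
    _ ≤ _ := by
        rw [Real.exp_le_exp]
        linarith

/-- the integral of the square of a Lagrange polynomial -/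
lemma int_le (s : Finset ℕ) (x : ℕ → ℝ) (w : ℝ → ℝ) (n : ℕ) (hn : 2 ≤ n) (E : ℝ)
    (hi : ∀ q : ℝ[X], Integrable (fun y : ℝ => q.eval y * w y))
    (h : ∀ y, (∏ j ∈ s, (y - x j)) ^ 2 * w y ≤ Real.exp E * (1 + y ^ 2)⁻¹) :
    ∫ y : ℝ, (∏ j ∈ s, (y - x j)) ^ 2 * w y ≤ Real.exp (E + 2 * Real.log n) := by
  have hn' : (2 : ℝ) ≤ n := by exact_mod_cast hn
  have hn0 : (0 : ℝ) < n := by linarith
  have h1 : Integrable fun y : ℝ => (∏ j ∈ s, (y - x j)) ^ 2 * w y := by
    refine (hi ((∏ j ∈ s, (X - C (x j))) ^ 2)).congr (Filter.Eventually.of_forall fun y => ?_)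
    simp only [eval_pow, eval_prod, eval_sub, eval_X, eval_C]
  have h2 : Integrable fun y : ℝ => Real.exp E * (1 + y ^ 2)⁻¹ :=
    integrable_inv_one_add_sq.const_mul _
  refine (integral_mono h1 h2 h).trans ?_
  rw [integral_const_mul, integral_univ_inv_one_add_sq, Real.exp_add]
  refine mul_le_mul_of_nonneg_left ?_ (Real.exp_pos _).le
  rw [two_mul, Real.exp_add, Real.exp_log hn0]
  nlinarith [Real.pi_le_four]

end H929

theorem G7_main (h1 : S_int) (h2 : S_cont) (h3 : S_gram) (h4 : S_sep) (h5 : S_pot) (h6 : S_weight)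
    (h7 : S_energy) (h8 : S_even) (h9 : S_cert1) (h10 : S_cert2) (h11 : S_cert3) (h12 : S_tail)
    (h13 : S_Q) : S_main := by
  obtain ⟨C₁, hC₁, hpot⟩ := h5
  obtain ⟨C₂, hC₂, hwt⟩ := h6
  obtain ⟨C₃, hC₃, hen⟩ := h7
  unfold S_Q at h13
  -- the constants
  set D : ℝ := 5 * (2 * C₁ + C₂ + 2) + 2 with hD
  set K : ℝ := 5 * (D + 4) + 5 + C₃ with hK
  have hDp : 0 < D := by positivity
  have hKp : 0 < K := by positivity
  have hlog : ∀ᶠ n : ℕ in atTop, K * Real.log n ≤ 2 / 10 * n := by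
    have ho := (Real.isLittleO_log_id_atTop.comp_tendsto tendsto_natCast_atTop_atTop).bound
      (show (0 : ℝ) < 2 / 10 / K by positivity)
    filter_upwards [ho, eventually_ge_atTop 1] with n hn hn1
    have hn1' : (1 : ℝ) ≤ n := by exact_mod_cast hn1
    simp only [Function.comp_apply, id, Real.norm_eq_abs] at hn
    rw [abs_of_nonneg (Real.log_nonneg hn1'), abs_of_nonneg (by linarith)] at hn
    have := mul_le_mul_of_nonneg_left hn hKp.le
    calc K * Real.log n ≤ K * (2 / 10 / K * n) := this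
      _ = 2 / 10 * n := by field_simp
  filter_upwards [hlog, eventually_ge_atTop 4,
    (tendsto_natCast_atTop_atTop (R := ℝ)).eventually_ge_atTop (2 * (2 * C₁ + C₂ + 2))]
    with n hn1 hn4 hn2 m hm1 hm2
  have hn : 2 ≤ n := by omega
  have hn4' : (4 : ℝ) ≤ n := by exact_mod_cast hn4
  have hn0 : (0 : ℝ) < n := by linarith
  have hl0 : 0 ≤ Real.log n := Real.log_nonneg (by linarith)
  have hl1 : 135 / 100 ≤ Real.log n := by
    have h := Real.log_le_log (by norm_num) hn4'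
    have h4 : Real.log 4 = 2 * Real.log 2 := by
      rw [show (4 : ℝ) = 2 ^ 2 by norm_num, Real.log_pow]; norm_num
    have := Real.log_two_gt_d9
    linarith
  -- the Gram determinant
  have hsep := fun i j => h4 (n := n) (by omega) i j
  have hinj : Set.InjOn (xn n) (Finset.range m) := by
    intro i hi j hj hij
    by_contra hne
    rw [Finset.coe_range, Set.mem_Iio] at hi hj
    have := (hsep i j (by omega) (by omega) hne).1
    rw [hij, sub_self, abs_zero] at this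
    norm_num at this
  obtain ⟨hc1, hc2⟩ := h2 n (5 * n)
  have hint := h1 n (5 * n) (by omega)
  obtain ⟨q, hq1, hq2⟩ := h3 (ww n (5 * n)) hc1 hc2 hint m (xn n) hinj
  refine ⟨q, hq1, ?_⟩
  set V : ℝ := ∏ i ∈ Finset.range m, ∏ j ∈ (Finset.range m).erase i, |xn n i - xn n j| with hV
  have hne : ∀ i ∈ Finset.range m, ∀ j ∈ (Finset.range m).erase i, |xn n i - xn n j| ≠ 0 := by
    intro i hi j hj
    rw [Finset.mem_range] at hi
    rw [Finset.mem_erase, Finset.mem_range] at hj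
    have := (hsep i j (by omega) (by omega) (Ne.symm hj.1)).1
    intro h0
    rw [h0] at this
    norm_num at this
  have hVpos : 0 < V := Finset.prod_pos fun i hi => Finset.prod_pos fun j hj =>
    lt_of_le_of_ne (abs_nonneg _) (Ne.symm (hne i hi j hj))
  have hVlog : 16 * (n : ℝ) ^ 2 * Real.log n + Qx * (n : ℝ) ^ 2 - C₃ * n * Real.log n ≤
      Real.log V := by
    rw [hV, Real.log_prod (fun i hi => Finset.prod_ne_zero_iff.2 (hne i hi))]
    rw [Finset.sum_congr rfl fun i hi => Real.log_prod (hne i hi)]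
    exact hen n hn m hm1 hm2
  -- the integrals
  set E : ℝ := -(665 / 100) * n + 5 * n * Real.log n + 5 * (2 * C₁ + C₂ + 2) * Real.log n with hE
  have hI : ∀ i ∈ Finset.range m,
      ∫ y : ℝ, (∏ j ∈ (Finset.range m).erase i, (y - xn n j)) ^ 2 * ww n (5 * n) y ≤
        Real.exp (E + 2 * Real.log n) := by
    intro i hi
    rw [Finset.mem_range] at hi
    exact H929.int_le _ _ _ n hn E hint fun y =>
      H929.ptw h8 h9 h10 h11 h12 C₁ C₂ hC₁ hC₂ n hn hn2 _ _ _ y (hc2 y)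
        (hpot n hn m hm1 hm2 i hi y) (hwt n hn y)
  have hI0 : ∀ i ∈ Finset.range m,
      0 ≤ ∫ y : ℝ, (∏ j ∈ (Finset.range m).erase i, (y - xn n j)) ^ 2 * ww n (5 * n) y :=
    fun i _ => integral_nonneg fun y => mul_nonneg (sq_nonneg _) (hc2 y).le
  have hprod : ∏ i ∈ Finset.range m,
      ∫ y : ℝ, (∏ j ∈ (Finset.range m).erase i, (y - xn n j)) ^ 2 * ww n (5 * n) y ≤
      Real.exp (m * (E + 2 * Real.log n)) := by
    refine (Finset.prod_le_prod hI0 hI).trans ?_
    rw [Finset.prod_const, Finset.card_range, ← Real.exp_nat_mul]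
  have hfact : (m.factorial : ℝ) ≤ Real.exp (m * (4 * Real.log n)) := by
    have h41 : ((m : ℕ) : ℝ) ≤ (n : ℝ) ^ 4 := by
      have h42 : (m : ℝ) ≤ 4 * n + 1 := by exact_mod_cast hm2
      have h43 : (64 : ℝ) ≤ (n : ℝ) ^ 3 := by
        calc (64 : ℝ) = 4 ^ 3 := by norm_num
          _ ≤ (n : ℝ) ^ 3 := pow_le_pow_left₀ (by norm_num) hn4' 3
      calc (m : ℝ) ≤ 64 * n := by linarith
        _ ≤ (n : ℝ) ^ 3 * n := mul_le_mul_of_nonneg_right h43 hn0.le
        _ = (n : ℝ) ^ 4 := by ring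
    have h44 : (m.factorial : ℝ) ≤ (m : ℝ) ^ m := by exact_mod_cast Nat.factorial_le_pow m
    calc (m.factorial : ℝ) ≤ (m : ℝ) ^ m := h44
      _ ≤ ((n : ℝ) ^ 4) ^ m := pow_le_pow_left₀ (Nat.cast_nonneg m) h41 m
      _ = Real.exp (m * (4 * Real.log n)) := by
        rw [Real.exp_nat_mul]
        congr 1
        rw [show (4 : ℝ) * Real.log n = ((4 : ℕ) : ℝ) * Real.log n by norm_num, Real.exp_nat_mul,
          Real.exp_log hn0]
  have hfin : (∏ i ∈ Finset.range m, ∫ y : ℝ, (q i).eval y ^ 2 * ww n (5 * n) y) ≤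
      Real.exp (m * (4 * Real.log n) + m * (E + 2 * Real.log n) - Real.log V) := by
    rw [Real.exp_sub, Real.exp_log hVpos, le_div_iff₀ hVpos, Real.exp_add]
    refine hq2.trans (mul_le_mul hfact hprod (Finset.prod_nonneg hI0) (Real.exp_pos _).le)
  refine hfin.trans (Real.exp_le_exp.2 ?_)
  -- the final estimate
  have hX : 0 ≤ 4 * Real.log n + (E + 2 * Real.log n) := by
    have : 0 ≤ (2 * C₁ + C₂ + 2) * Real.log n := by positivity
    have h30 : (n : ℝ) * (135 / 100) ≤ n * Real.log n := mul_le_mul_of_nonneg_left hl1 hn0.le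
    rw [hE]
    nlinarith
  have hmX : (m : ℝ) * (4 * Real.log n + (E + 2 * Real.log n)) ≤
      (4 * n + 1) * (4 * Real.log n + (E + 2 * Real.log n)) := by
    refine mul_le_mul_of_nonneg_right ?_ hX
    exact_mod_cast hm2
  have hXe : 4 * Real.log n + (E + 2 * Real.log n) =
      -(665 / 100) * n + 5 * n * Real.log n + (D + 4) * Real.log n := by
    rw [hE, hD]
    ring
  rw [hXe] at hmX
  have h20 : (D + 4) * Real.log n ≤ (D + 4) * (n * Real.log n) := by
    refine mul_le_mul_of_nonneg_left ?_ (by linarith)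
    nlinarith
  have h21 : Qx * (n : ℝ) ^ 2 ≥ 21 / 10 * (n : ℝ) ^ 2 := by
    refine mul_le_mul_of_nonneg_right h13 (by positivity)
  have h22 : K * Real.log n * n ≤ 2 / 10 * n * n := mul_le_mul_of_nonneg_right hn1 hn0.le
  have h23 : K * Real.log n * n = 5 * (D + 4) * (n * Real.log n) + 5 * (n * Real.log n) +
      C₃ * n * Real.log n := by
    rw [hK]; ring
  have h24 : (m : ℝ) * (4 * Real.log n) + m * (E + 2 * Real.log n) =
      m * (4 * Real.log n + (E + 2 * Real.log n)) := by ring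
  rw [h24, hXe]
  nlinarith

end Pool.Agent.LPB
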